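import Pool.Agent.Lib.H50E.T

/-! # H50E, file E: a fractional Hamiltonian cycle on `G` gives a 2-edge-connected spanning subgraph of `G` with at
most `3 n / 2 - 1` edges (Khuller - Vishkin, with the fractional cycle as lower bound) -/

set_option autoImplicit false

namespace H50E

open Finset H63F

variable {V : Type*} [Fintype V] [DecidableEq V]

set_option linter.unusedSectionVars false

/-- The edge `e` crosses the set `P`. -/
def Xr (e : Sym2 V) (P : V → Prop) : Prop := ∃ a, P a ∧ ∃ b, ¬ P b ∧ e = s(a, b)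

theorem xr_iff {a b : V} {P : V → Prop} : Xr s(a, b) P ↔ (P a ∧ ¬ P b) ∨ (P b ∧ ¬ P a) := by
  constructor
  · rintro ⟨u, hu, v, hv, he⟩
    rcases Sym2.eq_iff.1 he with ⟨h1, h2⟩ | ⟨h1, h2⟩
    · subst h1; subst h2; exact Or.inl ⟨hu, hv⟩
    · subst h1; subst h2; exact Or.inr ⟨hu, hv⟩
  · rintro (⟨h1, h2⟩ | ⟨h1, h2⟩)
    · exact ⟨a, h1, b, h2, rfl⟩
    · exact ⟨b, h1, a, h2, Sym2.eq_swap⟩

section Cover

variable {G : Finset (Sym2 V)} {r : V} {p : V → V} {d : V → ℕ}

/-- An edge of `G` which leaves the subtree of `v` goes up to a proper ancestor of `v`. -/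
theorem up_form (hc : ∀ u w, s(u, w) ∈ G → Sub p u w ∨ Sub p w u) {e : Sym2 V} (he : e ∈ G) {v : V}
    (hx : Xr e (Sub p v)) : ∃ a b, e = s(a, b) ∧ Sub p v a ∧ ¬ Sub p v b ∧ Sub p b a := by
  obtain ⟨a, ha, b, hb, rfl⟩ := hx
  refine ⟨a, b, rfl, ha, hb, ?_⟩
  rcases hc a b he with h | h
  · exact absurd (ha.trans h) hb
  · exact h

/-- State of the covering procedure: `X` = the vertices done, `B` = the chosen back edges, `K` = the vertices where
one was chosen. -/
structure St (G : Finset (Sym2 V)) (r : V) (p : V → V) (X K : Finset V) (B : Finset (Sym2 V)) : Prop where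
  rX : r ∉ X
  KX : K ⊆ X
  BG : B ⊆ G
  card : B.card ≤ K.card
  cov : ∀ v ∈ X, ∃ f ∈ B, f ≠ s(v, p v) ∧ Xr f (Sub p v)
  dis : ∀ v ∈ K, ∀ w ∈ K, v ≠ w → ∀ g ∈ G, Xr g (Sub p v) → ¬ Xr g (Sub p w)
  inv : ∀ u, u ≠ r → u ∉ X → (∀ f ∈ B, f ≠ s(u, p u) → ¬ Xr f (Sub p u)) →
    ∀ k ∈ K, ∀ g ∈ G, Xr g (Sub p k) → ¬ Xr g (Sub p u)

open Classical in
theorem step (h : RT G r p d) (hc : ∀ u w, s(u, w) ∈ G → Sub p u w ∨ Sub p w u) {X K : Finset V}
    {B : Finset (Sym2 V)} (hS : St G r p X K B) {v : V} (hvX : v ∉ X) (hvr : v ≠ r)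
    (hdesc : ∀ w, Sub p v w → w ≠ v → w ∈ X)
    (hback : ∃ g ∈ G, g ≠ s(v, p v) ∧ Xr g (Sub p v)) :
    ∃ (K' : Finset V) (B' : Finset (Sym2 V)), St G r p (insert v X) K' B' := by
  have hrX : r ∉ insert v X := by
    intro h1
    rcases mem_insert.1 h1 with h2 | h2
    · exact hvr h2.symm
    · exact hS.rX h2
  by_cases hcov : ∃ f ∈ B, f ≠ s(v, p v) ∧ Xr f (Sub p v)
  · refine ⟨K, B, ?_⟩
    refine ⟨hrX, hS.KX.trans (subset_insert _ _), hS.BG, hS.card, ?_, hS.dis, ?_⟩
    · intro w hw
      rcases mem_insert.1 hw with h1 | h1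
      · subst h1; exact hcov
      · exact hS.cov w h1
    · intro u hu hux
      exact hS.inv u hu (fun h1 => hux (mem_insert_of_mem h1))
  · -- the back edge going up as high as possible
    have hunc : ∀ f ∈ B, f ≠ s(v, p v) → ¬ Xr f (Sub p v) := fun f h1 h2 h3 => hcov ⟨f, h1, h2, h3⟩
    have hinv := hS.inv v hvr hvX hunc
    let P : Finset (V × V) := univ.filter fun q => s(q.1, q.2) ∈ G ∧ s(q.1, q.2) ≠ s(v, p v) ∧ Sub p v q.1 ∧
      ¬ Sub p v q.2
    have hP : P.Nonempty := by
      obtain ⟨g, hg, hne, hx⟩ := hback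
      obtain ⟨a, ha, b, hb, rfl⟩ := hx
      exact ⟨(a, b), by simp only [P, mem_filter, mem_univ, true_and]; exact ⟨hg, hne, ha, hb⟩⟩
    obtain ⟨⟨a, b⟩, hab, hmin⟩ := exists_min_image P (fun q => d q.2) hP
    simp only [P, mem_filter, mem_univ, true_and] at hab
    obtain ⟨habG, habne, hva, hvb⟩ := hab
    have hba : Sub p b a := by
      rcases hc a b habG with h1 | h1
      · exact absurd (hva.trans h1) hvb
      · exact h1
    have hvK : v ∉ K := fun h1 => hvX (hS.KX h1)
    -- an uncovered vertex outside has no common edge with `v`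
    have hnew : ∀ u, u ≠ r → u ∉ insert v X → (∀ f ∈ insert s(a, b) B, f ≠ s(u, p u) → ¬ Xr f (Sub p u)) →
        ∀ g ∈ G, Xr g (Sub p v) → ¬ Xr g (Sub p u) := by
      intro u hur huX huc g hg hx1 hx2
      obtain ⟨a', b', rfl, hva', hvb', hba'⟩ := up_form hc hg hx1
      have hua' : Sub p u a' ∧ ¬ Sub p u b' := by
        rcases xr_iff.1 hx2 with h1 | h1
        · exact h1
        · exact absurd (h1.1.trans hba') h1.2
      have hnvu : ¬ Sub p v u := by
        intro h1
        have huv : u ≠ v := fun h2 => huX (h2 ▸ mem_insert_self _ _)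
        exact huX (mem_insert_of_mem (hdesc u h1 huv))
      have huv : Sub p u v := by
        rcases hua'.1.comp hva' with h1 | h1
        · exact h1
        · exact absurd h1 hnvu
      have huv' : u ≠ v := fun h1 => hnvu (h1 ▸ Sub.rfl' p v)
      have hgne : s(a', b') ≠ s(v, p v) := by
        intro h1
        rcases Sym2.eq_iff.1 h1 with ⟨_, h2⟩ | ⟨h2, h3⟩
        · apply hua'.2
          rw [h2]
          exact huv.par (Ne.symm huv')
        · exact hvb' (h3 ▸ Sub.rfl' p v)
      have hle : d b ≤ d b' := by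
        have := hmin (a', b') (by simp only [P, mem_filter, mem_univ, true_and]; exact ⟨hg, hgne, hva', hvb'⟩)
        exact this
      have hb'u : Sub p b' u := by
        rcases hba'.comp hua'.1 with h1 | h1
        · exact h1
        · exact absurd h1 hua'.2
      have hb'lt : d b' < d u := h.d_lt hb'u (fun h1 => hua'.2 (h1 ▸ Sub.rfl' p b'))
      have hub : ¬ Sub p u b := by
        intro h1
        have := h.d_le h1
        omega
      refine huc s(a, b) (mem_insert_self _ _) ?_ (xr_iff.2 (Or.inl ⟨huv.trans hva, hub⟩))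
      intro h1
      rcases Sym2.eq_iff.1 h1 with ⟨h2, _⟩ | ⟨_, h2⟩
      · exact hnvu (h2 ▸ hva)
      · exact hub (h2 ▸ Sub.rfl' p u)
    refine ⟨insert v K, insert s(a, b) B, ?_⟩
    refine ⟨hrX, insert_subset_insert _ hS.KX, insert_subset habG hS.BG, ?_, ?_, ?_, ?_⟩
    · rw [card_insert_of_notMem hvK]
      exact (card_insert_le _ _).trans (Nat.succ_le_succ hS.card)
    · intro w hw
      rcases mem_insert.1 hw with h1 | h1
      · subst h1
        exact ⟨s(a, b), mem_insert_self _ _, habne, xr_iff.2 (Or.inl ⟨hva, hvb⟩)⟩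
      · obtain ⟨f, hf, h2, h3⟩ := hS.cov w h1
        exact ⟨f, mem_insert_of_mem hf, h2, h3⟩
    · intro x hx w hw hxw g hg hx1 hx2
      rcases mem_insert.1 hx with h1 | h1 <;> rcases mem_insert.1 hw with h2 | h2
      · exact hxw (h1.trans h2.symm)
      · subst h1; exact hinv w h2 g hg hx2 hx1
      · subst h2; exact hinv x h1 g hg hx1 hx2
      · exact hS.dis x h1 w h2 hxw g hg hx1 hx2
    · intro u hur huX huc k hk g hg hx1
      rcases mem_insert.1 hk with h1 | h1
      · subst h1
        exact hnew u hur huX huc g hg hx1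
      · exact hS.inv u hur (fun h2 => huX (mem_insert_of_mem h2))
          (fun f hf => huc f (mem_insert_of_mem hf)) k h1 g hg hx1

open Classical in
theorem run (h : RT G r p d) (hc : ∀ u w, s(u, w) ∈ G → Sub p u w ∨ Sub p w u)
    (hback : ∀ v, v ≠ r → ∃ g ∈ G, g ≠ s(v, p v) ∧ Xr g (Sub p v)) :
    ∃ (X K : Finset V) (B : Finset (Sym2 V)), St G r p X K B ∧ ∀ v, v ≠ r → v ∈ X := by
  have key : ∀ n : ℕ, ∀ (X K : Finset V) (B : Finset (Sym2 V)), (univ \ X).card = n → St G r p X K B →
      (∀ v ∈ X, ∀ w, Sub p v w → w ∈ X) →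
      ∃ (X K : Finset V) (B : Finset (Sym2 V)), St G r p X K B ∧ ∀ v, v ≠ r → v ∈ X := by
    intro n
    induction n with
    | zero =>
      intro X K B hn hS _
      refine ⟨X, K, B, hS, fun v _ => ?_⟩
      by_contra hv
      have : v ∈ univ \ X := mem_sdiff.2 ⟨mem_univ _, hv⟩
      rw [card_eq_zero.1 hn] at this
      exact notMem_empty v this
    | succ n ih =>
      intro X K B hn hS hcl
      by_cases hall : ∀ v, v ≠ r → v ∈ X
      · exact ⟨X, K, B, hS, hall⟩
      push Not at hall
      obtain ⟨v0, hv0, hv0X⟩ := hall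
      let Q : Finset V := univ.filter fun v => v ≠ r ∧ v ∉ X
      obtain ⟨v, hvQ, hmax⟩ := exists_max_image Q d ⟨v0, by simp only [Q, mem_filter, mem_univ, true_and]; exact ⟨hv0, hv0X⟩⟩
      simp only [Q, mem_filter, mem_univ, true_and] at hvQ
      obtain ⟨hvr, hvX⟩ := hvQ
      have hdesc : ∀ w, Sub p v w → w ≠ v → w ∈ X := by
        intro w hw hne
        by_contra hwX
        have hwr : w ≠ r := by
          intro h1
          rw [h1] at hw
          exact h.not_sub_root hvr hw
        have h1 := hmax w (by simp only [Q, mem_filter, mem_univ, true_and]; exact ⟨hwr, hwX⟩)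
        have h2 := h.d_lt hw (Ne.symm hne)
        omega
      obtain ⟨K', B', hS'⟩ := step h hc hS hvX hvr hdesc (hback v hvr)
      refine ih (insert v X) K' B' ?_ hS' ?_
      · have h1 : univ \ X = insert v (univ \ insert v X) := by
          ext x
          simp only [mem_sdiff, mem_univ, true_and, mem_insert]
          constructor
          · intro hx
            by_cases hxv : x = v
            · exact Or.inl hxv
            · exact Or.inr (fun h2 => h2.elim hxv hx)
          · rintro (h2 | h2)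
            · rw [h2]; exact hvX
            · exact fun h3 => h2 (Or.inr h3)
        rw [h1, card_insert_of_notMem (by simp)] at hn
        omega
      · intro x hx w hw
        rcases mem_insert.1 hx with h1 | h1
        · subst h1
          by_cases hwx : w = x
          · rw [hwx]; exact mem_insert_self _ _
          · exact mem_insert_of_mem (hdesc w hw hwx)
        · exact mem_insert_of_mem (hcl x h1 w hw)
  refine key _ ∅ ∅ ∅ rfl ?_ (fun v hv => absurd hv (notMem_empty v))
  refine ⟨notMem_empty r, subset_rfl, empty_subset _, le_rfl, ?_, ?_, ?_⟩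
  · intro v hv; exact absurd hv (notMem_empty v)
  · intro v hv; exact absurd hv (notMem_empty v)
  · intro u _ _ _ k hk; exact absurd hk (notMem_empty k)

/-- Tree edges and back edges together cross every cut at least twice. -/
theorem two_cross (h : RT G r p d) {X K : Finset V} {B : Finset (Sym2 V)} (hS : St G r p X K B)
    (hX : ∀ v, v ≠ r → v ∈ X) (P : V → Prop) {x z : V} (hx : P x) (hz : ¬ P z) :
    ∃ e f : Sym2 V, e ≠ f ∧ Xr e P ∧ Xr f P ∧ ((∃ v, v ≠ r ∧ e = s(v, p v)) ∨ e ∈ B) ∧
      ((∃ v, v ≠ r ∧ f = s(v, p v)) ∨ f ∈ B) := by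
  classical
  -- a tree edge crosses
  have h1 : ∃ v, v ≠ r ∧ Xr s(v, p v) P := by
    by_contra hcon
    push Not at hcon
    have hst : ∀ v, (P v ↔ P (p v)) := by
      intro v
      by_cases hv : v = r
      · subst hv
        rw [h.root]
      · have := hcon v hv
        rw [xr_iff] at this
        push Not at this
        constructor
        · intro hp; exact this.1 hp
        · intro hp; exact this.2 hp
    have hit : ∀ (k : ℕ) (v : V), (P v ↔ P (p^[k] v)) := by
      intro k
      induction k with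
      | zero => intro v; rfl
      | succ k ih =>
        intro v
        rw [Function.iterate_succ_apply, hst v]
        exact ih (p v)
    obtain ⟨k, hk⟩ := h.sub_root x
    obtain ⟨l, hl⟩ := h.sub_root z
    have h2 := (hit k x).1 hx
    have h3 := (not_congr (hit l z)).1 hz
    rw [hk] at h2
    rw [hl] at h3
    exact h3 h2
  obtain ⟨v, hvr, hv⟩ := h1
  by_cases h2 : ∃ w, w ≠ r ∧ s(w, p w) ≠ s(v, p v) ∧ Xr s(w, p w) P
  · obtain ⟨w, hwr, hne, hw⟩ := h2
    exact ⟨s(v, p v), s(w, p w), Ne.symm hne, hv, hw, Or.inl ⟨v, hvr, rfl⟩, Or.inl ⟨w, hwr, rfl⟩⟩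
  · push Not at h2
    -- only the tree edge at `v` crosses
    have hst : ∀ w, w ≠ v → (P w ↔ P (p w)) := by
      intro w hwv
      by_cases hw : w = r
      · subst hw
        rw [h.root]
      · have hne : s(w, p w) ≠ s(v, p v) := by
          intro h3
          rcases Sym2.eq_iff.1 h3 with ⟨h4, _⟩ | ⟨h4, h5⟩
          · exact hwv h4
          · have h6 := h.dep w hw
            have h7 := h.dep v hvr
            rw [h5] at h6
            rw [← h4] at h7
            omega
        have := h2 w hw hne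
        rw [xr_iff] at this
        push Not at this
        constructor
        · intro hp; exact this.1 hp
        · intro hp; exact this.2 hp
    have hin : ∀ (k : ℕ) (w : V), p^[k] w = v → (P w ↔ P v) := by
      intro k
      induction k with
      | zero => intro w hw; rw [show w = v from hw]
      | succ k ih =>
        intro w hw
        by_cases hwv : w = v
        · rw [hwv]
        · rw [hst w hwv]
          exact ih (p w) (by rw [← hw, Function.iterate_succ_apply])
    have hout : ∀ (k : ℕ) (w : V), p^[k] w = r → ¬ Sub p v w → (P w ↔ P r) := by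
      intro k
      induction k with
      | zero => intro w hw _; rw [show w = r from hw]
      | succ k ih =>
        intro w hw hns
        have hwv : w ≠ v := fun h3 => hns (h3 ▸ Sub.rfl' p w)
        rw [hst w hwv]
        exact ih (p w) (by rw [← hw, Function.iterate_succ_apply]) (fun h3 => hns h3.of_par)
    obtain ⟨f, hf, hfne, hfx⟩ := hS.cov v (hX v hvr)
    obtain ⟨a, ha, b, hb, rfl⟩ := hfx
    refine ⟨s(v, p v), s(a, b), Ne.symm hfne, hv, ?_, Or.inl ⟨v, hvr, rfl⟩, Or.inr hf⟩
    obtain ⟨k, hk⟩ := ha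
    obtain ⟨l, hl⟩ := h.sub_root b
    obtain ⟨m, hm⟩ := h.sub_root (p v)
    have e1 := hin k a hk
    have e2 := hout l b hl hb
    have e3 := hout m (p v) hm (h.not_sub_par hvr)
    rw [xr_iff] at hv ⊢
    rw [e1, e2, ← e3]
    exact hv

end Cover

end H50E
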