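import Pool.Agent.Lib.H50E.E
import Mathlib.Combinatorics.SimpleGraph.Connectivity.EdgeConnectivity

/-! # H50E, file F: counting with the weights, final statement -/

set_option autoImplicit false

namespace H50E

open Finset H63F

variable {V : Type*} [Fintype V] [DecidableEq V]

set_option linter.unusedSectionVars false

private theorem px_le (e : Sym2 V) (S : Finset V) : px e S ≤ 1 := by
  unfold px; split_ifs <;> norm_num

private theorem px_nn (e : Sym2 V) (S : Finset V) : 0 ≤ px e S := by
  unfold px; split_ifs <;> norm_num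

private theorem px_cr {e : Sym2 V} {S : Finset V} {P : V → Prop} (hP : ∀ x, x ∈ S ↔ P x) (h : ¬ Xr e P) :
    px e S = 0 := by
  unfold px
  rw [if_neg]
  rintro ⟨a, ha, b, hb, he⟩
  exact h ⟨a, (hP a).1 ha, b, fun h1 => hb ((hP b).2 h1), he⟩

private theorem px_one {e : Sym2 V} {S : Finset V} {P : V → Prop} (hP : ∀ x, x ∈ S ↔ P x) (h : Xr e P) :
    px e S = 1 := by
  obtain ⟨a, ha, b, hb, he⟩ := h
  unfold px
  rw [if_pos]
  exact ⟨a, (hP a).2 ha, b, fun h1 => hb ((hP b).1 h1), he⟩

/-- The total weight of a fractional Hamiltonian cycle is the number of vertices. -/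
theorem total {G : Finset (Sym2 V)} {y : Sym2 V → ℝ} (h : FracHam G y) : ∑ e, y e = Fintype.card V := by
  have h1 : ∑ v : V, cutw y {v} = 2 * (Fintype.card V : ℝ) := by
    rw [sum_congr rfl (fun v _ => h.vert v)]
    simp [mul_comm]
  have h2 : ∑ v : V, cutw y {v} = ∑ e, y e * ∑ v : V, px e {v} := by
    unfold cutw
    rw [sum_comm]
    exact sum_congr rfl fun e _ => by rw [mul_sum]
  have h3 : ∀ e : Sym2 V, y e * ∑ v : V, px e {v} = 2 * y e := by
    intro e
    by_cases he : e ∈ G
    · induction e using Sym2.ind with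
      | _ a b =>
        have hab : a ≠ b := by
          intro h4
          subst h4
          exact h.loop a he
        have h5 : ∀ v : V, px s(a, b) {v} = (if v = a then 1 else 0) + (if v = b then 1 else 0) := by
          intro v
          have hP : ∀ x, x ∈ ({v} : Finset V) ↔ x = v := fun x => mem_singleton
          by_cases hva : v = a
          · subst hva
            rw [px_one hP (xr_iff.2 (Or.inl ⟨rfl, Ne.symm hab⟩)), if_pos rfl, if_neg hab]
            norm_num
          · by_cases hvb : v = b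
            · subst hvb
              rw [px_one hP (xr_iff.2 (Or.inr ⟨rfl, hab⟩)), if_neg hva, if_pos rfl]
              norm_num
            · rw [px_cr hP, if_neg hva, if_neg hvb]
              · norm_num
              · rw [xr_iff]
                rintro (⟨h6, _⟩ | ⟨h6, _⟩)
                · exact hva h6.symm
                · exact hvb h6.symm
        rw [sum_congr rfl (fun v _ => h5 v), sum_add_distrib]
        simp
        ring
    · rw [h.supp e he]
      ring
  rw [h2, sum_congr rfl (fun e _ => h3 e), ← mul_sum] at h1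
  linarith

private theorem pair_le {a b : V} (hab : a ≠ b) (e : Sym2 V) :
    px e {a, b} ≤ px e {a} + px e {b} - 2 * (if e = s(a, b) then 1 else 0) := by
  classical
  induction e using Sym2.ind with
  | _ u w =>
    have hP2 : ∀ x, x ∈ ({a, b} : Finset V) ↔ (x = a ∨ x = b) := by intro x; simp
    have hPa : ∀ x, x ∈ ({a} : Finset V) ↔ x = a := fun x => mem_singleton
    have hPb : ∀ x, x ∈ ({b} : Finset V) ↔ x = b := fun x => mem_singleton
    by_cases he : s(u, w) = s(a, b)
    · rw [he, if_pos rfl, px_one hPa (xr_iff.2 (Or.inl ⟨rfl, Ne.symm hab⟩)),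
        px_one hPb (xr_iff.2 (Or.inr ⟨rfl, hab⟩)), px_cr hP2]
      · norm_num
      · rw [xr_iff]
        rintro (⟨_, h2⟩ | ⟨_, h2⟩)
        · exact h2 (Or.inr rfl)
        · exact h2 (Or.inl rfl)
    · rw [if_neg he]
      by_cases hx : Xr s(u, w) (fun x => x = a ∨ x = b)
      · rw [px_one hP2 hx]
        have h1 : Xr s(u, w) (fun x => x = a) ∨ Xr s(u, w) (fun x => x = b) := by
          rw [xr_iff] at hx
          rw [xr_iff, xr_iff]
          rcases hx with ⟨h1, h2⟩ | ⟨h1, h2⟩
          · rcases h1 with h1 | h1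
            · exact Or.inl (Or.inl ⟨h1, fun h3 => h2 (Or.inl h3)⟩)
            · exact Or.inr (Or.inl ⟨h1, fun h3 => h2 (Or.inr h3)⟩)
          · rcases h1 with h1 | h1
            · exact Or.inl (Or.inr ⟨h1, fun h3 => h2 (Or.inl h3)⟩)
            · exact Or.inr (Or.inr ⟨h1, fun h3 => h2 (Or.inr h3)⟩)
        rcases h1 with h1 | h1
        · rw [px_one hPa h1]
          linarith [px_nn s(u, w) ({b} : Finset V)]
        · rw [px_one hPb h1]
          linarith [px_nn s(u, w) ({a} : Finset V)]
      · rw [px_cr hP2 hx]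
        linarith [px_nn s(u, w) ({b} : Finset V), px_nn s(u, w) ({a} : Finset V)]

/-- No edge has weight more than one (`n ≥ 3`). -/
theorem weight_le {G : Finset (Sym2 V)} {y : Sym2 V → ℝ} (h : FracHam G y) (hn : 3 ≤ Fintype.card V) {a b : V}
    (hab : a ≠ b) : y s(a, b) ≤ 1 := by
  have h1 : cutw y ({a, b} : Finset V) ≤ cutw y {a} + cutw y {b} - 2 * y s(a, b) := by
    unfold cutw
    have h2 : ∑ e, y e * (px e {a} + px e {b} - 2 * (if e = s(a, b) then (1 : ℝ) else 0)) =
        ∑ e, y e * px e {a} + ∑ e, y e * px e {b} - 2 * y s(a, b) := by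
      have h3 : ∀ e : Sym2 V, y e * (px e {a} + px e {b} - 2 * (if e = s(a, b) then (1 : ℝ) else 0)) =
          y e * px e {a} + y e * px e {b} - 2 * (if e = s(a, b) then y s(a, b) else 0) := by
        intro e
        by_cases he : e = s(a, b)
        · rw [if_pos he, if_pos he, he]; ring
        · rw [if_neg he, if_neg he]; ring
      rw [sum_congr rfl (fun e _ => h3 e), sum_sub_distrib, sum_add_distrib, ← mul_sum]
      simp
    rw [← h2]
    exact sum_le_sum fun e _ => mul_le_mul_of_nonneg_left (pair_le hab e) (h.nonneg e)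
  have h2 : (2 : ℝ) ≤ cutw y ({a, b} : Finset V) := by
    apply h.cut
    · exact ⟨a, by simp⟩
    · intro h3
      have h4 : ({a, b} : Finset V).card ≤ 2 := card_le_two
      rw [h3, card_univ] at h4
      omega
  rw [h.vert a, h.vert b] at h1
  linarith

open Classical in
theorem two_ec_set {G : Finset (Sym2 V)} {y : Sym2 V → ℝ} (h : FracHam G y) (hn : 3 ≤ Fintype.card V) :
    ∃ H : Finset (Sym2 V), H ⊆ G ∧ 2 * H.card + 2 ≤ 3 * Fintype.card V ∧
      ∀ P : V → Prop, (∃ x, P x) → (∃ z, ¬ P z) → ∃ e ∈ H, ∃ f ∈ H, e ≠ f ∧ Xr e P ∧ Xr f P := by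
  have hne : Nonempty V := Fintype.card_pos_iff.1 (by omega)
  obtain ⟨r⟩ := hne
  have hcon : ∀ S : Finset V, S.Nonempty → S ≠ univ → ∃ a ∈ S, ∃ b, b ∉ S ∧ s(a, b) ∈ G := by
    intro S h1 h2
    by_contra hcon
    push Not at hcon
    have h3 : cutw y S = 0 := by
      unfold cutw
      apply sum_eq_zero
      intro e _
      by_cases he : e ∈ G
      · have : px e S = 0 := by
          unfold px
          rw [if_neg]
          rintro ⟨a, ha, b, hb, rfl⟩
          exact hcon a ha b hb he
        rw [this, mul_zero]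
      · rw [h.supp e he, zero_mul]
    have h4 := h.cut S h1 h2
    linarith
  obtain ⟨p, d, hT, hc⟩ := exists_dfs r hcon
  let S : V → Finset V := fun v => univ.filter (Sub p v)
  have hSm : ∀ v x, x ∈ S v ↔ Sub p v x := fun v x => by simp [S]
  have hcutS : ∀ v, v ≠ r → 2 ≤ cutw y (S v) := by
    intro v hv
    apply h.cut
    · exact ⟨v, (hSm v v).2 (Sub.rfl' p v)⟩
    · intro h1
      exact hT.not_sub_root hv ((hSm v r).1 (h1 ▸ mem_univ r))
  have hback : ∀ v, v ≠ r → ∃ g ∈ G, g ≠ s(v, p v) ∧ Xr g (Sub p v) := by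
    intro v hv
    by_contra hcon2
    push Not at hcon2
    have hvp : v ≠ p v := by
      intro h1
      have := hT.dep v hv
      rw [← h1] at this
      omega
    have h1 : cutw y (S v) ≤ y s(v, p v) := by
      unfold cutw
      rw [← add_sum_erase univ _ (mem_univ s(v, p v))]
      have h2 : ∑ e ∈ univ.erase s(v, p v), y e * px e (S v) = 0 := by
        apply sum_eq_zero
        intro e he
        by_cases heG : e ∈ G
        · rw [px_cr (hSm v) (hcon2 e heG (ne_of_mem_erase he)), mul_zero]
        · rw [h.supp e heG, zero_mul]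
      rw [h2, add_zero]
      calc y s(v, p v) * px s(v, p v) (S v) ≤ y s(v, p v) * 1 :=
            mul_le_mul_of_nonneg_left (px_le _ _) (h.nonneg _)
        _ = y s(v, p v) := mul_one _
    have h2 := weight_le h hn hvp
    have h3 := hcutS v hv
    linarith
  obtain ⟨X, K, B, hS, hX⟩ := run hT hc hback
  -- counting
  have hK : 2 * K.card ≤ Fintype.card V := by
    have h1 : (2 : ℝ) * K.card ≤ ∑ v ∈ K, cutw y (S v) := by
      have : ∑ _v ∈ K, (2 : ℝ) ≤ ∑ v ∈ K, cutw y (S v) := by
        apply sum_le_sum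
        intro v hv
        apply hcutS
        intro h2
        exact hS.rX (h2 ▸ hS.KX hv)
      simpa [mul_comm] using this
    have h2 : ∑ v ∈ K, cutw y (S v) ≤ ∑ e, y e := by
      unfold cutw
      rw [sum_comm]
      apply sum_le_sum
      intro e _
      rw [← mul_sum]
      by_cases he : e ∈ G
      · have h3 : ∑ v ∈ K, px e (S v) ≤ 1 := by
          by_cases h4 : ∃ v ∈ K, Xr e (Sub p v)
          · obtain ⟨v, hv, hx⟩ := h4
            rw [sum_eq_single_of_mem v hv]
            · exact px_le _ _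
            · intro w hw hwv
              exact px_cr (hSm w) (hS.dis v hv w hw (Ne.symm hwv) e he hx)
          · push Not at h4
            rw [sum_eq_zero (fun v hv => px_cr (hSm v) (h4 v hv))]
            norm_num
        calc y e * ∑ v ∈ K, px e (S v) ≤ y e * 1 := mul_le_mul_of_nonneg_left h3 (h.nonneg e)
          _ = y e := mul_one _
      · rw [h.supp e he]
        simp
    rw [total h] at h2
    have h3 : ((2 * K.card : ℕ) : ℝ) ≤ (Fintype.card V : ℕ) := by
      push_cast
      linarith
    exact_mod_cast h3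
  refine ⟨(univ.erase r).image (fun v => s(v, p v)) ∪ B, ?_, ?_, ?_⟩
  · intro e he
    rcases mem_union.1 he with h1 | h1
    · obtain ⟨v, hv, rfl⟩ := mem_image.1 h1
      exact hT.edge v (ne_of_mem_erase hv)
    · exact hS.BG h1
  · have h1 := card_union_le ((univ.erase r).image (fun v => s(v, p v))) B
    have h2 : ((univ.erase r).image (fun v => s(v, p v))).card ≤ Fintype.card V - 1 := by
      refine card_image_le.trans ?_
      rw [card_erase_of_mem (mem_univ r), card_univ]
    have h3 := hS.card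
    omega
  · rintro P ⟨x, hx⟩ ⟨z, hz⟩
    obtain ⟨e, f, hef, hxe, hxf, he, hf⟩ := two_cross hT hS hX P hx hz
    refine ⟨e, ?_, f, ?_, hef, hxe, hxf⟩
    · rcases he with ⟨v, hv, rfl⟩ | he
      · exact mem_union_left _ (mem_image.2 ⟨v, mem_erase.2 ⟨hv, mem_univ v⟩, rfl⟩)
      · exact mem_union_right _ he
    · rcases hf with ⟨v, hv, rfl⟩ | hf
      · exact mem_union_left _ (mem_image.2 ⟨v, mem_erase.2 ⟨hv, mem_univ v⟩, rfl⟩)
      · exact mem_union_right _ hf

/-- A fractional Hamiltonian cycle on `G` gives a 2-edge-connected spanning subgraph of `G` with at most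
`3 n / 2 - 1` edges. -/
theorem two_ec {G : Finset (Sym2 V)} {y : Sym2 V → ℝ} (h : FracHam G y) (hn : 3 ≤ Fintype.card V) :
    ∃ H : SimpleGraph V, H ≤ SimpleGraph.fromEdgeSet (G : Set (Sym2 V)) ∧ H.Connected ∧
      (∀ e, ¬ H.IsBridge e) ∧ 2 * H.edgeSet.ncard + 2 ≤ 3 * Fintype.card V := by
  classical
  obtain ⟨H0, hH0, hcard, hcut⟩ := two_ec_set h hn
  have hne : Nonempty V := Fintype.card_pos_iff.1 (by omega)
  refine ⟨SimpleGraph.fromEdgeSet (H0 : Set (Sym2 V)), ?_, ?_, ?_, ?_⟩
  · exact SimpleGraph.fromEdgeSet_mono (coe_subset.2 hH0)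
  · refine (SimpleGraph.connected_iff _).2 ⟨?_, hne⟩
    intro u v
    by_contra hcon
    obtain ⟨e, he, _, _, _, hx, _⟩ := hcut
      (fun x => (SimpleGraph.fromEdgeSet (H0 : Set (Sym2 V))).Reachable u x) ⟨u, SimpleGraph.Reachable.refl u⟩ ⟨v, hcon⟩
    obtain ⟨a, ha, b, hb, rfl⟩ := hx
    apply hb
    refine SimpleGraph.Reachable.trans ha (SimpleGraph.Adj.reachable ?_)
    rw [SimpleGraph.fromEdgeSet_adj]
    refine ⟨he, ?_⟩
    rintro rfl
    exact hb ha
  · intro e
    induction e using Sym2.ind with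
    | _ u v =>
      rw [SimpleGraph.isBridge_iff]
      intro hcon
      obtain ⟨e, he, f, hf, hef, hxe, hxf⟩ := hcut
        (fun x => ((SimpleGraph.fromEdgeSet (H0 : Set (Sym2 V))).deleteEdges {s(u, v)}).Reachable u x)
        ⟨u, SimpleGraph.Reachable.refl u⟩ ⟨v, hcon⟩
      have key : ∀ g ∈ H0, g ≠ s(u, v) → ¬ Xr g
          (fun x => ((SimpleGraph.fromEdgeSet (H0 : Set (Sym2 V))).deleteEdges {s(u, v)}).Reachable u x) := by
        rintro g hg hne ⟨a, ha, b, hb, rfl⟩
        apply hb
        refine SimpleGraph.Reachable.trans ha (SimpleGraph.Adj.reachable ?_)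
        rw [SimpleGraph.deleteEdges_adj, SimpleGraph.fromEdgeSet_adj]
        refine ⟨⟨hg, ?_⟩, hne⟩
        rintro rfl
        exact hb ha
      by_cases h1 : e = s(u, v)
      · exact key f hf (fun h2 => hef (h1.trans h2.symm)) hxf
      · exact key e he h1 hxe
  · have h1 : (SimpleGraph.fromEdgeSet (H0 : Set (Sym2 V))).edgeSet ⊆ (H0 : Set (Sym2 V)) := by
      rw [SimpleGraph.edgeSet_fromEdgeSet]
      exact Set.sdiff_subset
    have h2 := Set.ncard_le_ncard h1 (H0.finite_toSet)
    rw [Set.ncard_coe_finset] at h2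
    omega

end H50E
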