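import Pool.Agent.Lib.H63F.D

/-! # H50E, file T: rooted spanning trees with maximal sum of depths (every edge joins a vertex to an ancestor) -/

set_option autoImplicit false

namespace H50E

open Finset

variable {V : Type*} [Fintype V] [DecidableEq V]

set_option linter.unusedSectionVars false

/-- A spanning tree of `G` with root `r`, parent function `p` and depth `d`. -/
structure RT (G : Finset (Sym2 V)) (r : V) (p : V → V) (d : V → ℕ) : Prop where
  root : p r = r
  dr : d r = 0
  edge : ∀ v, v ≠ r → s(v, p v) ∈ G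
  dep : ∀ v, v ≠ r → d v = d (p v) + 1

/-- `w` lies in the subtree of `v`. -/
def Sub (p : V → V) (v w : V) : Prop := ∃ k : ℕ, p^[k] w = v

theorem Sub.rfl' (p : V → V) (v : V) : Sub p v v := ⟨0, rfl⟩

theorem Sub.trans {p : V → V} {u v w : V} (h1 : Sub p u v) (h2 : Sub p v w) : Sub p u w := by
  obtain ⟨k, hk⟩ := h1
  obtain ⟨l, hl⟩ := h2
  refine ⟨k + l, ?_⟩
  rw [Function.iterate_add_apply, hl, hk]

theorem Sub.comp {p : V → V} {u v w : V} (h1 : Sub p u w) (h2 : Sub p v w) : Sub p u v ∨ Sub p v u := by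
  obtain ⟨k, hk⟩ := h1
  obtain ⟨l, hl⟩ := h2
  rcases le_total k l with h | h
  · right
    refine ⟨l - k, ?_⟩
    rw [← hk, ← Function.iterate_add_apply, Nat.sub_add_cancel h, hl]
  · left
    refine ⟨k - l, ?_⟩
    rw [← hl, ← Function.iterate_add_apply, Nat.sub_add_cancel h, hk]

theorem Sub.par {p : V → V} {u v : V} (h : Sub p u v) (hne : v ≠ u) : Sub p u (p v) := by
  obtain ⟨k, hk⟩ := h
  cases k with
  | zero => exact absurd hk hne
  | succ k => exact ⟨k, by rw [← hk, Function.iterate_succ_apply]⟩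

theorem Sub.of_par {p : V → V} {u v : V} (h : Sub p u (p v)) : Sub p u v := by
  obtain ⟨k, hk⟩ := h
  exact ⟨k + 1, by rw [Function.iterate_succ_apply, hk]⟩

namespace RT

variable {G : Finset (Sym2 V)} {r : V} {p : V → V} {d : V → ℕ}

theorem d_par (h : RT G r p d) (v : V) : d (p v) = d v - 1 := by
  by_cases hv : v = r
  · subst hv
    rw [h.root, h.dr]
  · rw [h.dep v hv]
    simp

theorem d_iter (h : RT G r p d) (k : ℕ) (v : V) : d (p^[k] v) = d v - k := by
  induction k with
  | zero => rfl
  | succ k ih =>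
    rw [Function.iterate_succ_apply', h.d_par, ih]
    omega

theorem eq_root (h : RT G r p d) {v : V} (hv : d v = 0) : v = r := by
  by_contra hne
  have := h.dep v hne
  omega

theorem sub_root (h : RT G r p d) (v : V) : Sub p r v := by
  refine ⟨d v, ?_⟩
  apply h.eq_root
  rw [h.d_iter]
  simp

theorem d_le (h : RT G r p d) {u v : V} (hs : Sub p u v) : d u ≤ d v := by
  obtain ⟨k, hk⟩ := hs
  rw [← hk, h.d_iter]
  omega

theorem iter_root (h : RT G r p d) (k : ℕ) : p^[k] r = r := by
  induction k with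
  | zero => rfl
  | succ k ih => rw [Function.iterate_succ_apply', ih, h.root]

theorem eq_of_d (h : RT G r p d) {u v : V} (hs : Sub p u v) (hd : d v ≤ d u) : u = v := by
  obtain ⟨k, hk⟩ := hs
  have h1 := h.d_iter k v
  rw [hk] at h1
  by_cases hk0 : k = 0
  · subst hk0
    exact hk.symm
  · have h2 : d v = 0 := by omega
    have h3 := h.eq_root h2
    rw [h3, h.iter_root] at hk
    rw [h3, hk]

theorem antisymm (h : RT G r p d) {u v : V} (h1 : Sub p u v) (h2 : Sub p v u) : u = v :=
  h.eq_of_d h1 (h.d_le h2)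

theorem d_lt (h : RT G r p d) {u v : V} (hs : Sub p u v) (hne : u ≠ v) : d u < d v := by
  by_contra hcon
  exact hne (h.eq_of_d hs (by omega))

theorem not_sub_root (h : RT G r p d) {u : V} (hu : u ≠ r) : ¬ Sub p u r := by
  rintro ⟨k, hk⟩
  rw [h.iter_root] at hk
  exact hu hk.symm

theorem not_sub_par (h : RT G r p d) {v : V} (hv : v ≠ r) : ¬ Sub p v (p v) := by
  intro hs
  have h1 := h.d_le hs
  have h2 := h.dep v hv
  omega

theorem lt_card (h : RT G r p d) (v : V) : d v < Fintype.card V := by
  have hinj : Function.Injective (fun k : Fin (d v + 1) => p^[(k : ℕ)] v) := by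
    intro a b hab
    have h1 := h.d_iter a v
    have h2 := h.d_iter b v
    have h3 : p^[(a : ℕ)] v = p^[(b : ℕ)] v := hab
    rw [h3] at h1
    have ha := a.2
    have hb := b.2
    apply Fin.ext
    omega
  have := Fintype.card_le_of_injective _ hinj
  simp only [Fintype.card_fin] at this
  omega

open Classical in
/-- Re-hanging `u` below `w` increases the sum of the depths. -/
theorem rehang (h : RT G r p d) {u w : V} (he : s(u, w) ∈ G) (hn : ¬ Sub p u w) (hd : d u ≤ d w) :
    ∃ (p' : V → V) (d' : V → ℕ), RT G r p' d' ∧ ∑ x, d x < ∑ x, d' x := by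
  have hur : u ≠ r := by
    intro h1
    rw [h1] at hn
    exact hn (h.sub_root w)
  refine ⟨Function.update p u w, fun x => if Sub p u x then d x + (d w + 1 - d u) else d x, ?_, ?_⟩
  · refine ⟨?_, ?_, ?_, ?_⟩
    · rw [Function.update_of_ne (Ne.symm hur), h.root]
    · rw [if_neg (h.not_sub_root hur), h.dr]
    · intro v hv
      by_cases hvu : v = u
      · subst hvu
        rw [Function.update_self]
        exact he
      · rw [Function.update_of_ne hvu]
        exact h.edge v hv
    · intro v hv
      by_cases hvu : v = u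
      · subst hvu
        rw [Function.update_self, if_pos (Sub.rfl' p v), if_neg hn]
        omega
      · rw [Function.update_of_ne hvu]
        by_cases hs : Sub p u v
        · rw [if_pos hs, if_pos (hs.par hvu), h.dep v hv]
          omega
        · rw [if_neg hs, if_neg (fun h1 => hs h1.of_par), h.dep v hv]
  · apply Finset.sum_lt_sum
    · intro x _
      by_cases hs : Sub p u x
      · rw [if_pos hs]
        omega
      · rw [if_neg hs]
    · refine ⟨u, mem_univ _, ?_⟩
      rw [if_pos (Sub.rfl' p u)]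
      omega

end RT

theorem exists_rt {G : Finset (Sym2 V)} (r : V)
    (hcon : ∀ S : Finset V, S.Nonempty → S ≠ univ → ∃ a ∈ S, ∃ b, b ∉ S ∧ s(a, b) ∈ G) :
    ∃ (p : V → V) (d : V → ℕ), RT G r p d := by
  have key : ∀ k : ℕ, k + 1 ≤ Fintype.card V → ∃ U : Finset V, r ∈ U ∧ U.card = k + 1 ∧
      ∃ (p : V → V) (d : V → ℕ), p r = r ∧ d r = 0 ∧
        ∀ v ∈ U, v ≠ r → s(v, p v) ∈ G ∧ p v ∈ U ∧ d v = d (p v) + 1 := by
    intro k
    induction k with
    | zero =>
      intro _
      refine ⟨{r}, mem_singleton_self r, by simp, fun _ => r, fun _ => 0, rfl, rfl, ?_⟩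
      intro v hv hne
      exact absurd (mem_singleton.1 hv) hne
    | succ k ih =>
      intro hk
      obtain ⟨U, hrU, hU, p, d, h1, h2, h3⟩ := ih (by omega)
      have hne : U ≠ univ := by
        intro h
        rw [h, card_univ] at hU
        omega
      obtain ⟨a, ha, b, hb, he⟩ := hcon U ⟨r, hrU⟩ hne
      have hbr : b ≠ r := fun h => hb (h ▸ hrU)
      refine ⟨insert b U, mem_insert_of_mem hrU, by rw [card_insert_of_notMem hb, hU],
        Function.update p b a, Function.update d b (d a + 1), ?_, ?_, ?_⟩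
      · rw [Function.update_of_ne (Ne.symm hbr), h1]
      · rw [Function.update_of_ne (Ne.symm hbr), h2]
      · intro v hv hvr
        have hab : a ≠ b := fun h => hb (h ▸ ha)
        rcases mem_insert.1 hv with h | h
        · subst h
          rw [Function.update_self, Function.update_self, Function.update_of_ne hab]
          refine ⟨?_, mem_insert_of_mem ha, rfl⟩
          rw [Sym2.eq_swap]
          exact he
        · have hvb : v ≠ b := fun h' => hb (h' ▸ h)
          obtain ⟨h4, h5, h6⟩ := h3 v h hvr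
          have hpb : p v ≠ b := fun h' => hb (h' ▸ h5)
          rw [Function.update_of_ne hvb, Function.update_of_ne hvb, Function.update_of_ne hpb]
          exact ⟨h4, mem_insert_of_mem h5, h6⟩
  have hc : 0 < Fintype.card V := Fintype.card_pos_iff.2 ⟨r⟩
  obtain ⟨U, _, hU, p, d, h1, h2, h3⟩ := key (Fintype.card V - 1) (by omega)
  have hU' : U = univ := by
    apply eq_univ_of_card
    omega
  subst hU'
  exact ⟨p, d, h1, h2, fun v hv => (h3 v (mem_univ v) hv).1, fun v hv => (h3 v (mem_univ v) hv).2.2⟩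

/-- There is a rooted spanning tree such that every edge of `G` joins a vertex to an ancestor. -/
theorem exists_dfs {G : Finset (Sym2 V)} (r : V)
    (hcon : ∀ S : Finset V, S.Nonempty → S ≠ univ → ∃ a ∈ S, ∃ b, b ∉ S ∧ s(a, b) ∈ G) :
    ∃ (p : V → V) (d : V → ℕ), RT G r p d ∧ ∀ u w, s(u, w) ∈ G → Sub p u w ∨ Sub p w u := by
  let A : Set ℕ := {m | ∃ (p : V → V) (d : V → ℕ), RT G r p d ∧ ∑ x, d x = m}
  have hA : A.Nonempty := by
    obtain ⟨p, d, h⟩ := exists_rt r hcon
    exact ⟨_, p, d, h, rfl⟩
  have hB : BddAbove A := by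
    refine ⟨Fintype.card V * Fintype.card V, ?_⟩
    rintro m ⟨p, d, h, rfl⟩
    calc ∑ x, d x ≤ ∑ _x : V, Fintype.card V := sum_le_sum fun x _ => (h.lt_card x).le
      _ = Fintype.card V * Fintype.card V := by simp
  obtain ⟨p, d, h, hs⟩ := Nat.sSup_mem hA hB
  refine ⟨p, d, h, ?_⟩
  have hmax : ∀ u w, s(u, w) ∈ G → d u ≤ d w → Sub p u w := by
    intro u w he hd
    by_contra hn
    obtain ⟨p', d', h', hlt⟩ := h.rehang he hn hd
    have : ∑ x, d' x ≤ sSup A := le_csSup hB ⟨p', d', h', rfl⟩
    omega
  intro u w he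
  rcases le_total (d u) (d w) with h1 | h1
  · exact Or.inl (hmax u w he h1)
  · exact Or.inr (hmax w u (by rw [Sym2.eq_swap]; exact he) h1)

end H50E
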